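import Pool.Agent.BEN.StmtsB

/-!
# Squad BEN (MP_be01ff_an), row BTS: bootstrap to `L^∞`
-/

namespace Pool.Agent.BEN.H35

open Set Filter Topology MeasureTheory
open scoped InnerProductSpace ENNReal
open Pool.Agent.BE01 Pool.Agent.BEL Pool.Agent.BEF Pool.Agent.BEH

theorem bts (qef : QefStmt) : BtsStmt := by
  intro T _ μ _ s C0 X _ _ W hs hX hS q y c hq
  obtain ⟨h0, hss, -, -, hmono, -⟩ := qef s (by omega)
  -- the classes of `X` are in all the spaces
  have he : ∀ p : ℝ≥0∞, MemLp (W.e y) p μ := by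
    intro p
    refine MemLp.of_bound (Lp.aestronglyMeasurable _) ‖y‖ ?_
    filter_upwards [hX.le y] with z hz
    rwa [Real.norm_eq_abs]
  have hstep : ∀ j, j + 2 ≤ s → MemLp q (qe s (j + 2)) μ → MemLp q (qe s j) μ := by
    intro j hj h1
    have h2 : MemLp (W.S q) (qe s j) μ := by
      refine ⟨Lp.aestronglyMeasurable _, (hS.S j hj q).trans_lt ?_⟩
      exact ENNReal.mul_lt_top ENNReal.ofReal_lt_top h1.2
    have h3 : MemLp (fun z => W.e y z + c * W.S q z) (qe s j) μ := (he _).add (h2.const_mul c)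
    refine (memLp_congr_ae ?_).mpr h3
    have h4 : (q : T → ℝ) =ᵐ[μ] (W.e y + c • W.S q : Lp ℝ 2 μ) := by rw [← hq]
    filter_upwards [h4, Lp.coeFn_add (W.e y) (c • W.S q), Lp.coeFn_smul c (W.S q)] with z e1 e2 e3
    rw [e1, e2, Pi.add_apply, e3, Pi.smul_apply, smul_eq_mul]
  have hdown : ∀ k, 2 * k ≤ s → MemLp q (qe s (s - 2 * k)) μ := by
    intro k
    induction k with
    | zero =>
      intro _
      rw [Nat.mul_zero, Nat.sub_zero, hss]
      exact Lp.memLp q
    | succ k ih =>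
      intro hk
      refine hstep _ (by omega) ?_
      have h1 : s - 2 * (k + 1) + 2 = s - 2 * k := by omega
      rw [h1]
      exact ih (by omega)
  have hinf : MemLp q ∞ μ := by
    rw [← h0]
    rcases Nat.even_or_odd' s with ⟨k, hk | hk⟩
    · have h1 := hdown k (by omega)
      have h2 : s - 2 * k = 0 := by omega
      rwa [h2] at h1
    · have h1 := hdown k (by omega)
      have h2 : s - 2 * k = 1 := by omega
      rw [h2] at h1
      exact hstep 0 (by omega) (h1.mono_exponent (hmono 1 2 (by norm_num) hs))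
  obtain ⟨x, hx, -⟩ := hX.lift q (eLpNorm q ∞ μ).toReal ENNReal.toReal_nonneg (by
    have h1 : ∀ᵐ z ∂μ, ‖q z‖ₑ ≤ eLpNormEssSup q μ := enorm_ae_le_eLpNormEssSup q μ
    filter_upwards [h1] with z hz
    rw [← eLpNorm_exponent_top] at hz
    have h2 : eLpNorm q ∞ μ ≠ ∞ := hinf.2.ne
    have h3 := ENNReal.toReal_mono h2 hz
    rwa [toReal_enorm, Real.norm_eq_abs] at h3)
  exact ⟨x, hx⟩

end Pool.Agent.BEN.H35
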